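import Mathlib

/-! The schedule of the special levels, and the size of the product. -/

set_option autoImplicit false

open Finset

namespace H80NP

/-- The special levels. -/
def jk (J : ℕ) : ℕ → ℕ
  | 0 => J
  | k + 1 => 3 * jk J k / 2

@[simp] theorem jk_zero (J : ℕ) : jk J 0 = J := rfl

theorem jk_succ (J k : ℕ) : jk J (k + 1) = 3 * jk J k / 2 := rfl

theorem jk_ge {J : ℕ} (hJ : 4 ≤ J) (k : ℕ) : J ≤ jk J k ∧ jk J k < jk J (k + 1) := by
  induction k with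
  | zero => rw [jk_succ, jk_zero]; omega
  | succ k ih =>
    rw [jk_succ J (k + 1)]
    omega

theorem jk_strictMono {J : ℕ} (hJ : 4 ≤ J) : StrictMono (jk J) :=
  strictMono_nat_of_lt_succ fun k => (jk_ge hJ k).2

theorem jk_pow {J : ℕ} (hJ : 4 ≤ J) (k : ℕ) : (4 / 3 : ℝ) ^ k * J ≤ jk J k := by
  induction k with
  | zero => simp
  | succ k ih =>
    have h1 := (jk_ge hJ k).1
    have h2 : 4 * jk J k ≤ 3 * jk J (k + 1) := by
      rw [jk_succ]
      omega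
    have h3 : (4 : ℝ) * jk J k ≤ 3 * jk J (k + 1) := by exact_mod_cast h2
    rw [pow_succ]
    nlinarith

/-- Every level beyond `J` lies in one of the epochs. -/
theorem jk_cover {J : ℕ} (hJ : 4 ≤ J) {l : ℕ} (hl : J < l) : ∃ k, jk J k < l ∧ l ≤ jk J (k + 1) := by
  have h1 : ∃ k, l ≤ jk J k := ⟨l, (jk_strictMono hJ).le_apply⟩
  classical
  have h2 := Nat.find_spec h1
  have h3 : Nat.find h1 ≠ 0 := by
    intro h
    rw [h, jk_zero] at h2
    omega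
  obtain ⟨k, hk⟩ := Nat.exists_eq_succ_of_ne_zero h3
  refine ⟨k, ?_, ?_⟩
  · have := Nat.find_min h1 (m := k) (by omega)
    omega
  · rw [hk] at h2
    exact h2

/-- The merging factors. -/
noncomputable def gg (J g : ℕ) (l : ℕ) : ℕ := by
  classical
  exact (if l = J then J + 2 else 1) * (if ∃ k, l = jk J (k + 1) then g else 1)

theorem gg_J {J : ℕ} (hJ : 4 ≤ J) (g : ℕ) : gg J g J = J + 2 := by
  classical
  have h : ¬ ∃ k, J = jk J (k + 1) := by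
    rintro ⟨k, hk⟩
    have h1 := jk_ge hJ k
    omega
  unfold gg
  rw [if_pos rfl, if_neg h, mul_one]

theorem gg_jk {J : ℕ} (hJ : 4 ≤ J) (g : ℕ) {k : ℕ} (hk : 1 ≤ k) : gg J g (jk J k) = g := by
  classical
  obtain ⟨j, rfl⟩ : ∃ j, k = j + 1 := ⟨k - 1, by omega⟩
  have h1 := jk_ge hJ j
  unfold gg
  rw [if_neg (by omega), if_pos ⟨j, rfl⟩, one_mul]

theorem gg_else {J : ℕ} (g : ℕ) {l : ℕ} (hl : ∀ k, l ≠ jk J k) : gg J g l = 1 := by
  classical
  have h0 := hl 0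
  rw [jk_zero] at h0
  unfold gg
  rw [if_neg h0, if_neg (by rintro ⟨k, hk⟩; exact hl _ hk), one_mul]

theorem gg_pos {J g : ℕ} (hg : 1 ≤ g) (l : ℕ) : 1 ≤ gg J g l := by
  classical
  unfold gg
  refine Nat.mul_pos ?_ ?_
  · split_ifs <;> omega
  · split_ifs <;> omega

/-- The product of the merging factors. -/
theorem prod_gg {J g m : ℕ} (hJ : 4 ≤ J) (hg : 1 ≤ g) (hm : (g : ℝ) ≤ (4 / 3 : ℝ) ^ m) (h : ℕ) :
    ∏ i ∈ range h, gg J g i ≤ (J + 2) * (h + 1) ^ m := by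
  classical
  have e : ∏ i ∈ range h, gg J g i = (∏ i ∈ range h, if i = J then J + 2 else 1) *
      ∏ i ∈ range h, if ∃ k, i = jk J (k + 1) then g else 1 := by
    rw [← prod_mul_distrib]
    exact prod_congr rfl fun i _ => rfl
  rw [e]
  refine Nat.mul_le_mul ?_ ?_
  · rw [prod_ite_eq']
    split_ifs <;> omega
  · rw [prod_ite, prod_const_one, mul_one, prod_const]
    have h1 : ∃ k, h ≤ jk J k := ⟨h, (jk_strictMono hJ).le_apply⟩
    have h2 := Nat.find_spec h1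
    set K := Nat.find h1 with hK
    have h3 : ((range h).filter fun i => ∃ k, i = jk J (k + 1)).card ≤ K - 1 := by
      have h4 : ((range h).filter fun i => ∃ k, i = jk J (k + 1)) ⊆ (range (K - 1)).image fun k => jk J (k + 1) := by
        intro i hi
        rw [mem_filter, mem_range] at hi
        obtain ⟨hi, k, rfl⟩ := hi
        rw [mem_image]
        refine ⟨k, ?_, rfl⟩
        rw [mem_range]
        have h5 : k + 1 < K := by
          by_contra hc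
          have := (jk_strictMono hJ).monotone (not_lt.1 hc)
          omega
        omega
      refine (card_le_card h4).trans ?_
      refine card_image_le.trans ?_
      rw [card_range]
    refine (Nat.pow_le_pow_right hg h3).trans ?_
    rcases Nat.eq_zero_or_pos K with h0 | h0
    · rw [h0]
      simp only [Nat.zero_sub, pow_zero]
      exact Nat.one_le_pow _ _ (by omega)
    have h5 : jk J (K - 1) < h := by
      have := Nat.find_min h1 (m := K - 1) (by omega)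
      omega
    have h6 := jk_pow hJ (K - 1)
    have h7 : (4 / 3 : ℝ) ^ (K - 1) ≤ h + 1 := by
      have h8 : (jk J (K - 1) : ℝ) < h := by exact_mod_cast h5
      have h9 : (4 : ℝ) ≤ J := by exact_mod_cast hJ
      have h10 : 0 < (4 / 3 : ℝ) ^ (K - 1) := by positivity
      nlinarith
    have h8 : (g : ℝ) ^ (K - 1) ≤ ((h : ℝ) + 1) ^ m := by
      calc (g : ℝ) ^ (K - 1) ≤ ((4 / 3 : ℝ) ^ m) ^ (K - 1) := pow_le_pow_left₀ (by positivity) hm _
        _ = ((4 / 3 : ℝ) ^ (K - 1)) ^ m := by rw [← pow_mul, ← pow_mul, mul_comm]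
        _ ≤ _ := pow_le_pow_left₀ (by positivity) h7 _
    exact_mod_cast h8

/-- **The schedule.** -/
theorem sched (g J0 w : ℕ) (hg : 1 ≤ g) : ∃ kap : ℕ, ∀ h : ℕ, ∃ (J : ℕ) (Jk G : ℕ → ℕ),
    J0 ≤ J ∧ 4 ≤ J ∧ Jk 0 = J ∧ (∀ k, Jk (k + 1) = 3 * Jk k / 2) ∧
    G J = J + 2 ∧ (∀ k, 1 ≤ k → G (Jk k) = g) ∧ (∀ l, (∀ k, l ≠ Jk k) → G l = 1) ∧ (∀ l, 1 ≤ G l) ∧
    StrictMono Jk ∧ (∀ l, J < l → ∃ k, Jk k < l ∧ l ≤ Jk (k + 1)) ∧
    (16 * (h + 1) * ∏ i ∈ range h, G i) ^ w ≤ 2 ^ J ∧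
    2 ^ J * (16 * (h + 1) * ∏ i ∈ range h, G i) ≤ (h + 2) ^ kap := by
  obtain ⟨m, hm⟩ := pow_unbounded_of_one_lt (g : ℝ) (show (1 : ℝ) < 4 / 3 by norm_num)
  obtain ⟨q, hq1, hq2, hq3, hq4⟩ : ∃ q : ℕ, J0 ≤ 2 ^ q ∧ 4 ≤ 2 ^ q ∧ w * (m + q + 7) ≤ 2 ^ q ∧ m + q + 7 ≤ 2 ^ q := by
    have h1 : J0 + m < 2 ^ (J0 + m) := Nat.lt_two_pow_self
    have h2 : w < 2 ^ w := Nat.lt_two_pow_self
    have h3 : 2 ^ (J0 + m + 2 * w + 20) = 2 ^ (J0 + m) * (2 ^ w * 2 ^ w) * 2 ^ 20 := by ring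
    have h4 : (w + 1) * (w + 1) ≤ 2 ^ w * 2 ^ w := Nat.mul_le_mul h2 h2
    have h5 : (J0 + m + 1) * ((w + 1) * (w + 1)) ≤ 2 ^ (J0 + m) * (2 ^ w * 2 ^ w) := Nat.mul_le_mul h1 h4
    have h6 : (J0 + m + 1) * 1 ≤ (J0 + m + 1) * ((w + 1) * (w + 1)) := Nat.mul_le_mul_left _ (Nat.mul_pos (by omega) (by omega))
    refine ⟨J0 + m + 2 * w + 20, ?_, ?_, ?_, ?_⟩
    · rw [h3]
      norm_num
      omega
    · rw [h3]
      norm_num
      omega
    · rw [h3]
      refine le_trans ?_ (Nat.mul_le_mul_right _ h5)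
      norm_num
      nlinarith [Nat.zero_le (w * w * (J0 + m)), Nat.zero_le (w * (J0 + m)), Nat.zero_le (w * w), Nat.zero_le (J0 + m)]
    · rw [h3]
      refine le_trans ?_ (Nat.mul_le_mul_right _ h5)
      norm_num
      nlinarith [Nat.zero_le (w * w * (J0 + m)), Nat.zero_le (w * (J0 + m)), Nat.zero_le (w * w), Nat.zero_le (J0 + m)]
  refine ⟨2 ^ (q + 2), fun h => ?_⟩
  set L := Nat.log 2 (h + 2) + 1 with hL
  have hL1 : 1 ≤ L := by omega
  have h2L : h + 2 < 2 ^ L := Nat.lt_pow_succ_log_self (by norm_num) _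
  have h3L : 2 ^ L ≤ (h + 2) ^ 2 := by
    have h4 : 2 ^ Nat.log 2 (h + 2) ≤ h + 2 := Nat.pow_log_le_self 2 (by omega)
    rw [hL, pow_succ]
    nlinarith
  have hJ : 4 ≤ 2 ^ q * L := hq2.trans (Nat.le_mul_of_pos_right _ hL1)
  have hJ0 : J0 ≤ 2 ^ q * L := hq1.trans (Nat.le_mul_of_pos_right _ hL1)
  have hP : (16 * (h + 1) * ∏ i ∈ range h, gg (2 ^ q * L) g i) ≤ 2 ^ ((m + q + 7) * L) := by
    have h5 := prod_gg hJ hg hm.le h
    have h6 : 2 ^ q * L + 2 ≤ 2 ^ (q + 1 + L) := by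
      have h7 : L < 2 ^ L := Nat.lt_two_pow_self
      have h8 : 2 ^ (q + 1 + L) = 2 * (2 ^ q * 2 ^ L) := by ring
      rw [h8]
      have h9 : 2 ^ q * L ≤ 2 ^ q * 2 ^ L := Nat.mul_le_mul_left _ h7.le
      omega
    have h7 : (h + 1) ^ m ≤ 2 ^ (L * m) := by
      rw [pow_mul]
      exact Nat.pow_le_pow_left (by omega) _
    calc 16 * (h + 1) * ∏ i ∈ range h, gg (2 ^ q * L) g i ≤ 2 ^ 4 * 2 ^ L * (2 ^ (q + 1 + L) * 2 ^ (L * m)) := by
          refine Nat.mul_le_mul (Nat.mul_le_mul (by norm_num) (by omega)) (h5.trans (Nat.mul_le_mul h6 h7))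
      _ = 2 ^ (4 + L + (q + 1 + L + L * m)) := by rw [← pow_add, ← pow_add, ← pow_add]
      _ ≤ 2 ^ ((m + q + 7) * L) := by
          refine Nat.pow_le_pow_right (by norm_num) ?_
          nlinarith [Nat.zero_le (q * (L - 1)), Nat.mul_le_mul_left q hL1, Nat.mul_comm L m]
  have hP20 : (16 * (h + 1) * ∏ i ∈ range h, gg (2 ^ q * L) g i) ^ w ≤ 2 ^ (2 ^ q * L) := by
    refine (Nat.pow_le_pow_left hP w).trans ?_
    rw [← pow_mul]
    refine Nat.pow_le_pow_right (by norm_num) ?_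
    have := Nat.mul_le_mul_right L hq3
    nlinarith
  refine ⟨2 ^ q * L, jk (2 ^ q * L), gg (2 ^ q * L) g, hJ0, hJ, rfl, jk_succ _, gg_J hJ g, fun k hk => gg_jk hJ g hk,
    fun l hl => gg_else g hl, gg_pos hg, jk_strictMono hJ, fun l hl => jk_cover hJ hl, hP20, ?_⟩
  have h9 : (16 * (h + 1) * ∏ i ∈ range h, gg (2 ^ q * L) g i) ≤ 2 ^ (2 ^ q * L) := by
    exact hP.trans (Nat.pow_le_pow_right (by norm_num) (Nat.mul_le_mul_right L hq4))
  calc 2 ^ (2 ^ q * L) * (16 * (h + 1) * ∏ i ∈ range h, gg (2 ^ q * L) g i) ≤ 2 ^ (2 ^ q * L) * 2 ^ (2 ^ q * L) :=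
        Nat.mul_le_mul_left _ h9
    _ = (2 ^ L) ^ (2 ^ (q + 1)) := by
        rw [← pow_add, ← pow_mul]
        congr 1
        rw [pow_succ]
        ring
    _ ≤ ((h + 2) ^ 2) ^ (2 ^ (q + 1)) := Nat.pow_le_pow_left h3L _
    _ = (h + 2) ^ (2 ^ (q + 2)) := by
        rw [← pow_mul]
        congr 1
        rw [pow_succ 2 (q + 1)]
        ring

end H80NP
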