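import Mathlib
import Pool.Agent.H80.AP.Sched

/-! Normalization of the threshold costs. -/

set_option autoImplicit false

open Finset

namespace H80NP

theorem sqrt2_ge : (1.4142 : ℝ) ≤ √2 := Real.le_sqrt_of_sq_le (by norm_num)

/-- Division by `2^J P √2^j`. -/
theorem norm {J P : ℕ} {G : ℕ → ℕ} (hP : 1 ≤ P) {c : ℕ → ℕ → ℝ} (c0 : ∀ j t, 0 ≤ c j t)
    (cA : ∀ j d, 1 ≤ d → c (j + 1) d ≤ √2 * c j (G j * (d - 1) + 1) +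
        432 * ∑ t ∈ Ioc (G j * (d - 1) + 1) P, c j t)
    (cD : ∀ i s d, (∀ l, i ≤ l → l < i + s → G l = 1) → 2 ≤ d →
        c (i + s) d ≤ 2 ^ s * (216 * ∑ t ∈ Icc d P, c i t))
    (cF : ∀ j t, j + 2 ≤ t → c j t ≤ 36 * (P + j + 2) * P) (c1 : c 0 1 ≤ 2 ^ J * P) :
    ∃ F : ℕ → ℕ → ℝ, (∀ j t, 0 ≤ F j t) ∧
      (∀ j d, 1 ≤ d → F (j + 1) d ≤ F j (G j * (d - 1) + 1) + 306 * ∑ t ∈ Ioc (G j * (d - 1) + 1) P, F j t) ∧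
      (∀ i s d, (∀ l, i ≤ l → l < i + s → G l = 1) → 2 ≤ d →
        F (i + s) d ≤ √2 ^ s * (216 * ∑ t ∈ Icc d P, F i t)) ∧
      (∀ j t, j + 2 ≤ t → F j t ≤ 36 * P * (j + 3) / (2 ^ J * √2 ^ j)) ∧
      F 0 1 ≤ 1 ∧ ∀ h, F h 1 ≤ 3 → c h 1 ≤ 3 * (2 ^ J * P) * √2 ^ h := by
  have hP0 : (0 : ℝ) < P := by exact_mod_cast hP
  have hP1 : (1 : ℝ) ≤ P := by exact_mod_cast hP
  have hr : 0 < √(2 : ℝ) := by positivity
  have hN : ∀ j, 0 < (2 : ℝ) ^ J * P * √2 ^ j := fun j => by positivity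
  have hN' : ∀ j, (2 : ℝ) ^ J * P * √2 ^ j ≠ 0 := fun j => (hN j).ne'
  have hq : √(2 : ℝ) * √2 = 2 := Real.mul_self_sqrt (by norm_num)
  refine ⟨fun j t => c j t / (2 ^ J * P * √2 ^ j), fun j t => div_nonneg (c0 j t) (hN j).le, ?_, ?_, ?_, ?_, ?_⟩
  · intro j d hd
    have h1 := cA j d hd
    have h2 : 0 ≤ ∑ t ∈ Ioc (G j * (d - 1) + 1) P, c j t := sum_nonneg fun t _ => c0 j t
    have h3 : c j (G j * (d - 1) + 1) / (2 ^ J * P * √2 ^ j) + 306 * ∑ t ∈ Ioc (G j * (d - 1) + 1) P, c j t / (2 ^ J * P * √2 ^ j) =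
        (√2 * c j (G j * (d - 1) + 1) + √2 * 306 * ∑ t ∈ Ioc (G j * (d - 1) + 1) P, c j t) / (2 ^ J * P * √2 ^ (j + 1)) := by
      rw [← sum_div, pow_succ]
      field_simp
    show c (j + 1) d / (2 ^ J * P * √2 ^ (j + 1)) ≤ _
    rw [h3]
    refine div_le_div_of_nonneg_right ?_ (hN _).le
    have h4 : 432 ≤ √(2 : ℝ) * 306 := by nlinarith [sqrt2_ge]
    nlinarith
  · intro i s d hG hd
    have h1 := cD i s d hG hd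
    have h3 : √2 ^ s * (216 * ∑ t ∈ Icc d P, c i t / (2 ^ J * P * √2 ^ i)) =
        (2 ^ s * (216 * ∑ t ∈ Icc d P, c i t)) / (2 ^ J * P * √2 ^ (i + s)) := by
      rw [← sum_div, pow_add, div_eq_mul_inv, div_eq_mul_inv]
      have h4 : (2 : ℝ) ^ s = √2 ^ s * √2 ^ s := by rw [← mul_pow, hq]
      rw [h4]
      field_simp
    show c (i + s) d / (2 ^ J * P * √2 ^ (i + s)) ≤ _
    rw [h3]
    exact div_le_div_of_nonneg_right h1 (hN _).le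
  · intro j t ht
    have h1 := cF j t ht
    show c j t / (2 ^ J * P * √2 ^ j) ≤ _
    rw [div_le_div_iff₀ (hN _) (by positivity)]
    have h2 : c j t ≤ 36 * P * (j + 3) * P := by
      refine h1.trans ?_
      have h3 : (0 : ℝ) ≤ j := Nat.cast_nonneg j
      nlinarith [mul_nonneg (mul_nonneg h3 (sub_nonneg.2 hP1)) hP0.le, mul_nonneg (sub_nonneg.2 hP1) hP0.le]
    have h4 : (0 : ℝ) ≤ 2 ^ J * √2 ^ j := by positivity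
    calc c j t * (2 ^ J * √2 ^ j) ≤ 36 * P * (j + 3) * P * (2 ^ J * √2 ^ j) := mul_le_mul_of_nonneg_right h2 h4
      _ = _ := by ring
  · show c 0 1 / (2 ^ J * P * √2 ^ 0) ≤ 1
    rw [pow_zero, mul_one, div_le_one (by positivity)]
    exact c1
  · intro h hh
    have h1 : c h 1 / (2 ^ J * P * √2 ^ h) ≤ 3 := hh
    rw [div_le_iff₀ (hN h)] at h1
    calc c h 1 ≤ _ := h1
      _ = _ := by ring

/-- The rules for the normalized costs, and the schedule. -/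
structure Core (g J P : ℕ) (Jk G : ℕ → ℕ) (F : ℕ → ℕ → ℝ) : Prop where
  hJk0 : Jk 0 = J
  hJk : ∀ k, Jk (k + 1) = 3 * Jk k / 2
  hGJ : G J = J + 2
  hGk : ∀ k, 1 ≤ k → G (Jk k) = g
  hG1 : ∀ l, (∀ k, l ≠ Jk k) → G l = 1
  hGp : ∀ l, 1 ≤ G l
  hmono : StrictMono Jk
  hcover : ∀ l, J < l → ∃ k, Jk k < l ∧ l ≤ Jk (k + 1)
  hP1 : 1 ≤ P
  hP : P ^ 48 ≤ 2 ^ J
  F0 : ∀ j t, 0 ≤ F j t
  FA : ∀ j d, 1 ≤ d → F (j + 1) d ≤ F j (G j * (d - 1) + 1) + 306 * ∑ t ∈ Ioc (G j * (d - 1) + 1) P, F j t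
  FD : ∀ i s d, (∀ l, i ≤ l → l < i + s → G l = 1) → 2 ≤ d →
    F (i + s) d ≤ √2 ^ s * (216 * ∑ t ∈ Icc d P, F i t)
  FL : ∀ j t, j + 2 ≤ t → F j t ≤ 36 * P * (j + 3) / (2 ^ J * √2 ^ j)
  F01 : F 0 1 ≤ 1

/-- The numerical statement follows from the core. -/
theorem numeric_of_core (g J0 : ℕ) (hg : 1 ≤ g)
    (core : ∀ (J P : ℕ) (Jk G : ℕ → ℕ) (F : ℕ → ℕ → ℝ), J0 ≤ J → 4 ≤ J → Core g J P Jk G F → ∀ h, F h 1 ≤ 3) :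
    ∃ κ : ℕ, ∀ h : ℕ, ∃ (J P : ℕ) (G : ℕ → ℕ),
    (∀ j, 1 ≤ G j) ∧ P = 16 * (h + 1) * ∏ i ∈ Finset.range h, G i ∧
    2 ^ J * P ≤ (h + 2) ^ κ ∧
    ∀ c : ℕ → ℕ → ℝ, (∀ j t, 0 ≤ c j t) →
      (∀ j d, 1 ≤ d → c (j + 1) d ≤ √2 * c j (G j * (d - 1) + 1) +
        432 * ∑ t ∈ Finset.Ioc (G j * (d - 1) + 1) P, c j t) →
      (∀ i s d, (∀ l, i ≤ l → l < i + s → G l = 1) → 2 ≤ d →
        c (i + s) d ≤ 2 ^ s * (216 * ∑ t ∈ Finset.Icc d P, c i t)) →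
      (∀ j t, j + 2 ≤ t → c j t ≤ 36 * (P + j + 2) * P) →
      c 0 1 ≤ 2 ^ J * P →
      c h 1 ≤ 3 * (2 ^ J * P) * √2 ^ h := by
  obtain ⟨kap, hk⟩ := sched g J0 48 hg
  refine ⟨kap, fun h => ?_⟩
  obtain ⟨J, Jk, G, hJ0, hJ4, h1, h2, h3, h4, h5, h6, h7, h8, h9, h10⟩ := hk h
  refine ⟨J, _, G, h6, rfl, h10, ?_⟩
  set P := 16 * (h + 1) * ∏ i ∈ range h, G i with hPd
  intro c c0 cA cD cF c1
  have hP1 : 1 ≤ P := Nat.mul_pos (by omega) (prod_pos fun i _ => h6 i)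
  obtain ⟨F, F0, FA, FD, FL, F01, Fh⟩ := norm hP1 c0 cA cD cF c1
  exact Fh h (core J P Jk G F hJ0 hJ4 ⟨h1, h2, h3, h4, h5, h6, h7, h8, hP1, h9, F0, FA, FD, FL, F01⟩ h)

end H80NP
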