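import Mathlib

/-! Geometric sums for the epochs. -/

set_option autoImplicit false

open Finset

namespace H80NP

theorem geoI {x : ℝ} (h0 : 0 ≤ x) (h1 : x < 1) (d P : ℕ) : ∑ t ∈ Ioc d P, x ^ t ≤ x ^ (d + 1) / (1 - x) := by
  have hx : 0 < 1 - x := by linarith
  rcases le_or_gt d P with h | h
  · have h2 : ∀ Q, d ≤ Q → (1 - x) * ∑ t ∈ Ioc d Q, x ^ t = x ^ (d + 1) - x ^ (Q + 1) := by
      intro Q hQ
      induction Q, hQ using Nat.le_induction with
      | base => simp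
      | succ Q hQ ih =>
        rw [← insert_Ioc_right_eq_Ioc_add_one hQ, sum_insert (by simp), mul_add, ih]
        ring
    rw [le_div_iff₀ hx, mul_comm, h2 P h]
    have : 0 ≤ x ^ (P + 1) := pow_nonneg h0 _
    linarith
  · rw [Ioc_eq_empty (by omega), sum_empty]
    positivity

/-- `∑_{t > d} x^(t-1) ≤ x^(d-1) x / (1 - x)`. -/
theorem geoP {x : ℝ} (h0 : 0 ≤ x) (h1 : x < 1) {d : ℕ} (hd : 1 ≤ d) (P : ℕ) :
    ∑ t ∈ Ioc d P, x ^ (t - 1) ≤ x ^ (d - 1) * (x / (1 - x)) := by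
  have hx : 0 < 1 - x := by linarith
  rcases le_or_gt d P with h | h
  · have h2 : ∀ Q, d ≤ Q → (1 - x) * ∑ t ∈ Ioc d Q, x ^ (t - 1) = x ^ d - x ^ Q := by
      intro Q hQ
      induction Q, hQ using Nat.le_induction with
      | base => simp
      | succ Q hQ ih =>
        rw [← insert_Ioc_right_eq_Ioc_add_one hQ, sum_insert (by simp), mul_add, ih, Nat.add_sub_cancel]
        ring
    have h3 : x ^ (d - 1) * (x / (1 - x)) = x ^ d / (1 - x) := by
      obtain ⟨e, rfl⟩ : ∃ e, d = e + 1 := ⟨d - 1, by omega⟩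
      rw [Nat.add_sub_cancel, pow_succ]
      ring
    rw [h3, le_div_iff₀ hx, mul_comm, h2 P h]
    have : 0 ≤ x ^ P := pow_nonneg h0 _
    linarith
  · rw [Ioc_eq_empty (by omega), sum_empty]
    positivity

theorem geoM {μ : ℝ} (h1 : 1 < μ) {d D : ℕ} (hd : d ≤ D) : (μ - 1) * ∑ t ∈ Ioc d D, μ ^ (D - t + 1) ≤ μ ^ (D - d + 1) - μ := by
  induction D, hd using Nat.le_induction with
  | base => simp
  | succ D hD ih =>
    have h2 : ∑ t ∈ Ioc d D, μ ^ (D + 1 - t + 1) = μ * ∑ t ∈ Ioc d D, μ ^ (D - t + 1) := by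
      rw [mul_sum]
      refine sum_congr rfl fun t ht => ?_
      rw [mem_Ioc] at ht
      have : D + 1 - t + 1 = (D - t + 1) + 1 := by omega
      rw [this, pow_succ]
      ring
    have h3 : D + 1 - d + 1 = (D - d + 1) + 1 := by omega
    rw [← insert_Ioc_right_eq_Ioc_add_one hD, sum_insert (by simp), h2, h3, pow_succ μ (D - d + 1), Nat.sub_self, zero_add, pow_one]
    nlinarith

/-- The recursion in the near field. -/
theorem near {F : ℕ → ℕ → ℝ} {D S L : ℕ} {A x : ℕ → ℝ} {B : ℝ} (hB : 0 ≤ B) (hA : ∀ l, 0 ≤ A l) (hx0 : ∀ l, 0 ≤ x l)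
    (hx1 : ∀ l, x l < 1)
    (h0 : ∀ d, 2 ≤ d → d ≤ D → F 0 d ≤ ∑ l ∈ range L, A l * x l ^ (d - 1) + B)
    (hs : ∀ s, s < S → ∀ d, 2 ≤ d → d ≤ D → F (s + 1) d ≤ F s d + 306 * (∑ t ∈ Ioc d D, F s t + B)) :
    ∀ s, s ≤ S → ∀ d, 2 ≤ d → d ≤ D → F s d ≤
      ∑ l ∈ range L, A l * (1 + 306 * (x l / (1 - x l))) ^ s * x l ^ (d - 1) + B * (51 / 50) ^ s * 30601 ^ (D - d + 1) := by
  intro s
  induction s with
  | zero =>
    intro _ d h2 hD
    refine (h0 d h2 hD).trans ?_
    have h1 : B ≤ B * (51 / 50) ^ 0 * 30601 ^ (D - d + 1) := by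
      rw [pow_zero, mul_one]
      exact le_mul_of_one_le_right hB (one_le_pow₀ (by norm_num))
    simp only [pow_zero, mul_one] at h1 ⊢
    linarith
  | succ s ih =>
    intro hsS d h2 hD
    have ih' := ih (by omega)
    refine (hs s (by omega) d h2 hD).trans ?_
    have h3 : ∑ t ∈ Ioc d D, F s t ≤ ∑ l ∈ range L, A l * (1 + 306 * (x l / (1 - x l))) ^ s * (x l ^ (d - 1) * (x l / (1 - x l))) +
        B * (51 / 50) ^ s * (30601 ^ (D - d + 1) / 30600) := by
      have h4 : ∑ t ∈ Ioc d D, F s t ≤ ∑ t ∈ Ioc d D, (∑ l ∈ range L, A l * (1 + 306 * (x l / (1 - x l))) ^ s * x l ^ (t - 1) +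
          B * (51 / 50) ^ s * 30601 ^ (D - t + 1)) := by
        refine sum_le_sum fun t ht => ?_
        rw [mem_Ioc] at ht
        exact ih' t (by omega) ht.2
      refine h4.trans ?_
      rw [sum_add_distrib, sum_comm]
      refine add_le_add (sum_le_sum fun l _ => ?_) ?_
      · rw [← mul_sum]
        have h5 : 0 ≤ A l * (1 + 306 * (x l / (1 - x l))) ^ s := by
          have h6 : 0 ≤ x l / (1 - x l) := div_nonneg (hx0 l) (by linarith [hx1 l])
          exact mul_nonneg (hA l) (pow_nonneg (by linarith) _)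
        exact mul_le_mul_of_nonneg_left (geoP (hx0 l) (hx1 l) (by omega) D) h5
      · rw [← mul_sum]
        have h5 : 0 ≤ B * (51 / 50 : ℝ) ^ s := mul_nonneg hB (by positivity)
        refine mul_le_mul_of_nonneg_left ?_ h5
        have h6 := geoM (μ := 30601) (by norm_num) hD
        rw [le_div_iff₀ (by norm_num)]
        norm_num at h6
        linarith
    have h4 := ih' d h2 hD
    have h5 : B ≤ B * (51 / 50) ^ s * (30601 ^ (D - d + 1) / 30601) := by
      rw [mul_assoc]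
      refine le_mul_of_one_le_right hB ?_
      have h6 : (1 : ℝ) ≤ (51 / 50) ^ s := one_le_pow₀ (by norm_num)
      have h7 : (1 : ℝ) ≤ 30601 ^ (D - d + 1) / 30601 := by
        rw [le_div_iff₀ (by norm_num), one_mul, pow_succ]
        exact le_mul_of_one_le_left (by norm_num) (one_le_pow₀ (by norm_num))
      calc (1 : ℝ) = 1 * 1 := by norm_num
        _ ≤ _ := mul_le_mul h6 h7 zero_le_one (by positivity)
    have h6 : ∑ l ∈ range L, A l * (1 + 306 * (x l / (1 - x l))) ^ (s + 1) * x l ^ (d - 1) =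
        ∑ l ∈ range L, A l * (1 + 306 * (x l / (1 - x l))) ^ s * x l ^ (d - 1) +
        306 * ∑ l ∈ range L, A l * (1 + 306 * (x l / (1 - x l))) ^ s * (x l ^ (d - 1) * (x l / (1 - x l))) := by
      rw [mul_sum, ← sum_add_distrib]
      refine sum_congr rfl fun l _ => ?_
      ring
    rw [h6]
    have h7 : 0 ≤ B * (51 / 50 : ℝ) ^ s * 30601 ^ (D - d + 1) := by positivity
    have h8 : B * (51 / 50 : ℝ) ^ (s + 1) * 30601 ^ (D - d + 1) = (51 / 50) * (B * (51 / 50) ^ s * 30601 ^ (D - d + 1)) := by ring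
    have h9 : B * (51 / 50 : ℝ) ^ s * (30601 ^ (D - d + 1) / 30600) = (1 / 30600) * (B * (51 / 50) ^ s * 30601 ^ (D - d + 1)) := by ring
    have h10 : B * (51 / 50 : ℝ) ^ s * (30601 ^ (D - d + 1) / 30601) = (1 / 30601) * (B * (51 / 50) ^ s * 30601 ^ (D - d + 1)) := by ring
    rw [h8]
    rw [h9] at h3
    rw [h10] at h5
    nlinarith

end H80NP
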